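import Pool.Agent.H37.Ra3

set_option autoImplicit false

open Pool.Agent.H37 Ra

theorem Pool.Agent.Results.MP_4bcfd7_lc.No.result (c C : ℝ) :
    ∃ (n N : ℕ) (I : Inst n N), I.Valid ∧ (∀ j, (I.M j).card = 2) ∧
      (∃ L, ∀ t, ∃ a, I.Elig t a ∧ ∀ i, I.load t a i ≤ L) ∧
      ∀ A : ℕ → Fin N → Fin n, (∀ t, I.Elig t (A t)) →
        (∀ t i, (I.load t (A t) i : ℝ) ≤ c * I.OPT) → C * (2 * N) < I.moves A :=
  Ra.main c C
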